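import Mathlib

/-!
# Quadratic APN functions whose ortho-derivative has nonlinearity zero

Let `n ≥ 3`. We show that there is a quadratic APN function on `F_2^n` whose ortho-derivative has
nonlinearity zero if and only if `n = 3`.

For `n = 3` the ortho-derivative of `x ↦ x^3` on the field with eight elements is linear.

Let `n ≥ 4`, let `B` be the polar form of `F` and suppose that `b · π_F` is affine, `b ≠ 0`. Then it
is linear and `U = {a : b · π_F a = 0}` is the set of `0` and of all `a` for which there is `x` with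
`B a x = b`. The sets `{a, x, a + x}` with `B a x = b` form a partition of `U \ {0}`. If `μ · b = 1`
then the sum of `q = μ · (F + F 0)` over such a set is `1`. So the sum of `1 + q` over `U \ {0}` is
`0`, and the sum over `U` is `1`. But this is the sum over `F_2^n` of a polynomial function of
degree at most `3 < n`, so it is `0`.
-/

set_option autoImplicit false

namespace Pool.Agent.Results.MP_4cfb12_co.OrthoDerivativeH38

open Finset Matrix

/-- the space `F_2^n` -/
abbrev V (n : ℕ) : Type := Fin n → ZMod 2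

/-- `F` is APN: for every `a ≠ 0` and every `b` the equation `F (x + a) + F x = b` has at most two
solutions `x`. -/
def IsAPN {n : ℕ} (F : V n → V n) : Prop :=
  ∀ a : V n, a ≠ 0 → ∀ b : V n, (univ.filter fun x : V n => F (x + a) + F x = b).card ≤ 2

/-- The algebraic degree of `F`: the least `r` such that all coordinates of `F` are given by
polynomials over `F_2` of (total) degree at most `r`. -/
noncomputable def algDegree {n : ℕ} (F : V n → V n) : ℕ :=
  sInf {r : ℕ | ∀ i : Fin n, ∃ P : MvPolynomial (Fin n) (ZMod 2), P.totalDegree ≤ r ∧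
    ∀ x : V n, MvPolynomial.eval x P = F x i}

/-- `F` is quadratic: its algebraic degree is two. -/
def IsQuadratic {n : ℕ} (F : V n → V n) : Prop := algDegree F = 2

open Classical in
/-- The ortho-derivative `π_F`: `π_F 0 = 0`, and for `a ≠ 0` the vector `π_F a` is a nonzero vector
`v` which is orthogonal to `D_a F x + D_a F 0` for all `x`, where `D_a F x = F (x + a) + F x` (for a
quadratic APN function there is exactly one such vector, see `existsUnique_ortho`). -/
noncomputable def orthoDerivative {n : ℕ} (F : V n → V n) (a : V n) : V n :=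
  if h : a ≠ 0 ∧ ∃ v : V n, v ≠ 0 ∧
      ∀ x : V n, v ⬝ᵥ ((F (x + a) + F x) + (F (0 + a) + F 0)) = 0
  then h.2.choose else 0

/-- The nonlinearity of `G`: the least number of `x` with `b · G x ≠ ℓ x`, for `b ≠ 0` and an affine
function `ℓ x = c · x + e`. -/
noncomputable def NL {n : ℕ} (G : V n → V n) : ℕ :=
  sInf {m : ℕ | ∃ b : V n, b ≠ 0 ∧ ∃ (c : V n) (e : ZMod 2),
    m = (univ.filter fun x : V n => b ⬝ᵥ G x ≠ c ⬝ᵥ x + e).card}

section general

variable {n : ℕ}

lemma zmod2_add_self (x : ZMod 2) : x + x = 0 := CharTwo.add_self_eq_zero x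

lemma vadd_self (x : V n) : x + x = 0 := by
  funext i; exact zmod2_add_self _

/-- the polar form -/
def B (F : V n → V n) (x y : V n) : V n := F (x + y) + F x + F y + F 0

lemma B_comm (F : V n → V n) (x y : V n) : B F x y = B F y x := by
  unfold B; rw [add_comm x y]; abel

lemma B_self (F : V n → V n) (x : V n) : B F x x = 0 := by
  unfold B
  rw [vadd_self]
  funext i
  simp only [Pi.add_apply, Pi.zero_apply]
  linear_combination (zmod2_add_self (F 0 i)) + (zmod2_add_self (F x i))

lemma B_zero_right (F : V n → V n) (x : V n) : B F x 0 = 0 := by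
  unfold B
  rw [add_zero]
  funext i
  simp only [Pi.add_apply, Pi.zero_apply]
  linear_combination (zmod2_add_self (F 0 i)) + (zmod2_add_self (F x i))

lemma quad_polys {F : V n → V n} (hF : IsQuadratic F) :
    ∀ i : Fin n, ∃ P : MvPolynomial (Fin n) (ZMod 2), P.totalDegree ≤ 2 ∧
      ∀ x : V n, MvPolynomial.eval x P = F x i := by
  unfold IsQuadratic algDegree at hF
  have hne : {r : ℕ | ∀ i : Fin n, ∃ P : MvPolynomial (Fin n) (ZMod 2), P.totalDegree ≤ r ∧
      ∀ x : V n, MvPolynomial.eval x P = F x i}.Nonempty := by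
    by_contra h
    rw [Set.not_nonempty_iff_eq_empty] at h
    rw [h, Nat.sInf_empty] at hF
    omega
  have := Nat.sInf_mem hne
  rw [hF] at this
  exact this

lemma eval_monomial_toMultiset (s : Fin n →₀ ℕ) (x : V n) :
    MvPolynomial.eval x (MvPolynomial.monomial s (1 : ZMod 2)) =
      ((Finsupp.toMultiset s).map x).prod := by
  rw [MvPolynomial.eval_monomial, one_mul, Finsupp.toMultiset_map, Finsupp.prod_toMultiset]
  rw [Finsupp.prod_mapDomain_index]
  · intro b; simp
  · intro b m₁ m₂; exact pow_add _ _ _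

lemma cube_monomial (s : Fin n →₀ ℕ) (hs : s.sum (fun _ e => e) ≤ 2) (x y z : V n) :
    MvPolynomial.eval (x + y + z) (MvPolynomial.monomial s (1 : ZMod 2))
      + MvPolynomial.eval (x + y) (MvPolynomial.monomial s (1 : ZMod 2))
      + MvPolynomial.eval (x + z) (MvPolynomial.monomial s (1 : ZMod 2))
      + MvPolynomial.eval (y + z) (MvPolynomial.monomial s (1 : ZMod 2))
      + MvPolynomial.eval x (MvPolynomial.monomial s (1 : ZMod 2))
      + MvPolynomial.eval y (MvPolynomial.monomial s (1 : ZMod 2))
      + MvPolynomial.eval z (MvPolynomial.monomial s (1 : ZMod 2))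
      + MvPolynomial.eval 0 (MvPolynomial.monomial s (1 : ZMod 2)) = 0 := by
  have hcard : Multiset.card (Finsupp.toMultiset s) ≤ 2 := by
    rw [Finsupp.card_toMultiset]; exact hs
  simp only [eval_monomial_toMultiset]
  have h2 : (2 : ZMod 2) = 0 := by decide
  interval_cases h : Multiset.card (Finsupp.toMultiset s)
  · rw [Multiset.card_eq_zero] at h
    rw [h]; simp only [Multiset.map_zero, Multiset.prod_zero]; decide
  · rw [Multiset.card_eq_one] at h
    obtain ⟨i, hi⟩ := h
    rw [hi]
    simp only [Multiset.map_singleton, Multiset.prod_singleton, Pi.add_apply, Pi.zero_apply]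
    linear_combination (2 * x i + 2 * y i + 2 * z i) * h2
  · rw [Multiset.card_eq_two] at h
    obtain ⟨i, j, hij⟩ := h
    rw [hij]
    simp only [Multiset.insert_eq_cons, Multiset.map_cons, Multiset.map_singleton, Multiset.prod_cons,
      Multiset.prod_singleton, Pi.add_apply, Pi.zero_apply]
    linear_combination (2 * x i * x j + 2 * y i * y j + 2 * z i * z j + x i * y j + y i * x j + x i * z j + z i * x j + y i * z j + z i * y j) * h2

/-- third derivatives -/
def Cube (f : V n → ZMod 2) : Prop := ∀ x y z : V n,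
  f (x + y + z) + f (x + y) + f (x + z) + f (y + z) + f x + f y + f z + f 0 = 0

lemma cube_of_poly (P : MvPolynomial (Fin n) (ZMod 2)) (hP : P.totalDegree ≤ 2) :
    Cube (fun x => MvPolynomial.eval x P) := by
  intro x y z
  have key : ∀ w : V n, MvPolynomial.eval w P = ∑ s ∈ P.support, P.coeff s *
      MvPolynomial.eval w (MvPolynomial.monomial s (1 : ZMod 2)) := by
    intro w
    conv_lhs => rw [P.as_sum]
    rw [map_sum]
    refine sum_congr rfl fun s _ => ?_
    rw [MvPolynomial.eval_monomial, MvPolynomial.eval_monomial, one_mul]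
  simp only [key]
  simp only [← sum_add_distrib, ← mul_add]
  refine sum_eq_zero fun s hs => ?_
  have h1 : s.sum (fun _ e => e) ≤ 2 := (MvPolynomial.le_totalDegree hs).trans hP
  rw [cube_monomial s h1 x y z, mul_zero]

lemma cube_F {F : V n → V n} (hF : IsQuadratic F) (x y z : V n) :
    F (x + y + z) + F (x + y) + F (x + z) + F (y + z) + F x + F y + F z + F 0 = 0 := by
  funext i
  obtain ⟨P, hP, hPF⟩ := quad_polys hF i
  have := cube_of_poly P hP x y z
  simpa only [hPF, Pi.add_apply, Pi.zero_apply] using this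

lemma B_add {F : V n → V n} (hF : IsQuadratic F) (x y z : V n) :
    B F x (y + z) = B F x y + B F x z := by
  have h := cube_F hF x y z
  unfold B
  funext i
  have h2 : (2 : ZMod 2) = 0 := by decide
  have hi := congrFun h i
  simp only [Pi.add_apply, Pi.zero_apply] at hi ⊢
  rw [← add_assoc x y z]
  linear_combination hi - (F (x + y) i + F (x + z) i + F x i + F y i + F z i + F 0 i) * h2

/-- the polar form as a linear map in the second variable -/
noncomputable def BL {F : V n → V n} (hF : IsQuadratic F) (x : V n) : V n →ₗ[ZMod 2] V n :=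
  (AddMonoidHom.mk' (B F x) (B_add hF x)).toZModLinearMap 2

lemma BL_apply {F : V n → V n} (hF : IsQuadratic F) (x y : V n) : BL hF x y = B F x y := rfl

lemma eq_of_add_eq_zero {x y : V n} (h : x + y = 0) : x = y := by
  have : x + y + y = 0 + y := by rw [h]
  rwa [add_assoc, vadd_self, add_zero, zero_add] at this

/-- for an APN function the polar form vanishes only on dependent pairs -/
lemma B_eq_zero {F : V n → V n} (hA : IsAPN F) {x y : V n} (hx : x ≠ 0) (h : B F x y = 0) :
    y = 0 ∨ y = x := by
  by_contra hcon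
  push Not at hcon
  have h3 := hA x hx (F x + F 0)
  have hsub : ({0, x, y} : Finset (V n)) ⊆
      univ.filter fun z : V n => F (z + x) + F z = F x + F 0 := by
    intro z hz
    simp only [mem_insert, mem_singleton] at hz
    simp only [mem_filter, mem_univ, true_and]
    rcases hz with rfl | rfl | rfl
    · rw [zero_add]
    · rw [vadd_self]; exact add_comm _ _
    · unfold B at h
      rw [add_comm x z] at h
      have h5 : F (z + x) + F x + F z + F 0 = 0 := h
      have h6 : (F (z + x) + F z) + (F x + F 0) = 0 := by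
        have e : (F (z + x) + F z) + (F x + F 0) = F (z + x) + F x + F z + F 0 := by abel
        rw [e]; exact h5
      exact eq_of_add_eq_zero h6
  have hc : ({0, x, y} : Finset (V n)).card = 3 := by
    rw [card_eq_three]
    exact ⟨0, x, y, hx.symm, hcon.1.symm, hcon.2.symm, rfl⟩
  have := card_le_card hsub
  omega

lemma ker_BL {F : V n → V n} (hF : IsQuadratic F) (hA : IsAPN F) {a : V n} (ha : a ≠ 0) :
    LinearMap.ker (BL hF a) = Submodule.span (ZMod 2) {a} := by
  apply le_antisymm
  · intro y hy
    rw [LinearMap.mem_ker, BL_apply] at hy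
    rcases B_eq_zero hA ha hy with rfl | rfl
    · exact Submodule.zero_mem _
    · exact Submodule.mem_span_singleton_self _
  · rw [Submodule.span_singleton_le_iff_mem, LinearMap.mem_ker, BL_apply]
    exact B_self F a

lemma finrank_range {F : V n → V n} (hF : IsQuadratic F) (hA : IsAPN F) {a : V n} (ha : a ≠ 0) :
    Module.finrank (ZMod 2) (LinearMap.range (BL hF a)) + 1 = n := by
  have h1 := LinearMap.finrank_range_add_finrank_ker (BL hF a)
  rw [ker_BL hF hA ha, finrank_span_singleton ha] at h1
  rw [h1]; simp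

/-- the functional given by a vector -/
noncomputable def dotL (v : V n) : V n →ₗ[ZMod 2] ZMod 2 where
  toFun y := v ⬝ᵥ y
  map_add' y z := dotProduct_add v y z
  map_smul' c y := by simp

lemma dotL_apply (v y : V n) : dotL v y = v ⬝ᵥ y := rfl

lemma exists_dot (f : V n →ₗ[ZMod 2] ZMod 2) : ∃ v : V n, ∀ y, f y = v ⬝ᵥ y := by
  refine ⟨fun i => f (Pi.single i 1), fun y => ?_⟩
  conv_lhs => rw [← Finset.univ_sum_single y]
  rw [map_sum]
  unfold dotProduct
  refine sum_congr rfl fun i _ => ?_
  have : (Pi.single i (y i) : V n) = y i • (Pi.single i (1 : ZMod 2) : V n) := by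
    rw [← Pi.single_smul, smul_eq_mul, mul_one]
  rw [this, map_smul, smul_eq_mul, mul_comm]

lemma dot_ne {v : V n} (hv : v ≠ 0) : dotL v ≠ 0 := by
  intro h
  apply hv
  funext i
  have := LinearMap.congr_fun h (Pi.single i 1)
  simpa [dotL_apply] using this

lemma finrank_ker_dot {v : V n} (hv : v ≠ 0) :
    Module.finrank (ZMod 2) (LinearMap.ker (dotL v)) + 1 = n := by
  have h1 := LinearMap.finrank_range_add_finrank_ker (dotL v)
  have h2 : LinearMap.range (dotL v) = ⊤ := LinearMap.range_eq_top.2
    (LinearMap.surjective (dot_ne hv))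
  rw [h2, finrank_top, Module.finrank_self] at h1
  have h3 : Module.finrank (ZMod 2) (V n) = n := by simp
  omega

lemma D_eq (F : V n → V n) (x a : V n) :
    (F (x + a) + F x) + (F (0 + a) + F 0) = B F a x := by
  unfold B
  rw [zero_add, add_comm x a]; abel

/-- the orthogonal vector exists and is unique -/
lemma existsUnique_ortho {F : V n → V n} (hF : IsQuadratic F) (hA : IsAPN F) {a : V n}
    (ha : a ≠ 0) : ∃! v : V n, v ≠ 0 ∧
      ∀ x : V n, v ⬝ᵥ ((F (x + a) + F x) + (F (0 + a) + F 0)) = 0 := by
  have hr := finrank_range hF hA ha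
  have hn : Module.finrank (ZMod 2) (V n) = n := by simp
  have key : ∀ v : V n, v ≠ 0 → (∀ x : V n, v ⬝ᵥ ((F (x + a) + F x) + (F (0 + a) + F 0)) = 0) →
      LinearMap.range (BL hF a) = LinearMap.ker (dotL v) := by
    intro v hv h
    apply Submodule.eq_of_le_of_finrank_eq
    · rintro _ ⟨x, rfl⟩
      rw [LinearMap.mem_ker, dotL_apply, BL_apply, ← D_eq]
      exact h x
    · have := finrank_ker_dot hv
      omega
  have hex : ∃ v : V n, v ≠ 0 ∧
      ∀ x : V n, v ⬝ᵥ ((F (x + a) + F x) + (F (0 + a) + F 0)) = 0 := by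
    have hlt : LinearMap.range (BL hF a) < ⊤ := by
      apply Submodule.lt_top_of_finrank_lt_finrank
      omega
    obtain ⟨f, hf0, hf⟩ := Submodule.exists_le_ker_of_lt_top _ hlt
    obtain ⟨v, hv⟩ := exists_dot f
    refine ⟨v, ?_, fun x => ?_⟩
    · rintro rfl
      apply hf0
      ext y
      simp [hv]
    · rw [D_eq, ← hv, ← BL_apply hF]
      exact LinearMap.mem_ker.1 (hf ⟨x, rfl⟩)
  obtain ⟨v, hv0, hv⟩ := hex
  refine ⟨v, ⟨hv0, hv⟩, ?_⟩
  rintro w ⟨hw0, hw⟩
  have h1 := (key v hv0 hv).symm.trans (key w hw0 hw)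
  -- two functionals over `F_2` with the same kernel are equal
  have h2 : dotL v = dotL w := by
    apply LinearMap.ext
    intro y
    by_contra hne
    have h01 : ∀ s t : ZMod 2, s ≠ t → (s = 0 ∧ t ≠ 0) ∨ (s ≠ 0 ∧ t = 0) := by decide
    rcases h01 _ _ hne with ⟨hs, ht⟩ | ⟨hs, ht⟩
    · exact ht (LinearMap.mem_ker.1 (h1 ▸ LinearMap.mem_ker.2 hs))
    · exact hs (LinearMap.mem_ker.1 (h1 ▸ LinearMap.mem_ker.2 ht))
  funext i
  have := LinearMap.congr_fun h2 (Pi.single i 1)
  simpa [dotL_apply] using this.symm

lemma ortho_zero (F : V n → V n) : orthoDerivative F 0 = 0 := by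
  unfold orthoDerivative
  rw [dif_neg]
  rintro ⟨h, _⟩
  exact h rfl

lemma ortho_spec {F : V n → V n} (hF : IsQuadratic F) (hA : IsAPN F) {a : V n} (ha : a ≠ 0) :
    orthoDerivative F a ≠ 0 ∧ ∀ x : V n,
      orthoDerivative F a ⬝ᵥ ((F (x + a) + F x) + (F (0 + a) + F 0)) = 0 := by
  have h : a ≠ 0 ∧ ∃ v : V n, v ≠ 0 ∧
      ∀ x : V n, v ⬝ᵥ ((F (x + a) + F x) + (F (0 + a) + F 0)) = 0 :=
    ⟨ha, (existsUnique_ortho hF hA ha).exists⟩
  unfold orthoDerivative
  rw [dif_pos h]
  exact h.2.choose_spec

lemma ortho_unique {F : V n → V n} (hF : IsQuadratic F) (hA : IsAPN F) {a v : V n} (ha : a ≠ 0)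
    (hv : v ≠ 0) (h : ∀ x : V n, v ⬝ᵥ ((F (x + a) + F x) + (F (0 + a) + F 0)) = 0) :
    orthoDerivative F a = v :=
  (existsUnique_ortho hF hA ha).unique (ortho_spec hF hA ha) ⟨hv, h⟩

/-- `b · π_F a = 0` if and only if `b` is a value of the polar form at `a` -/
lemma ortho_iff {F : V n → V n} (hF : IsQuadratic F) (hA : IsAPN F) {a b : V n} (ha : a ≠ 0) :
    b ⬝ᵥ orthoDerivative F a = 0 ↔ ∃ x, B F a x = b := by
  obtain ⟨hv0, hv⟩ := ortho_spec hF hA ha
  set v := orthoDerivative F a
  have key : LinearMap.range (BL hF a) = LinearMap.ker (dotL v) := by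
    apply Submodule.eq_of_le_of_finrank_eq
    · rintro _ ⟨x, rfl⟩
      rw [LinearMap.mem_ker, dotL_apply, BL_apply, ← D_eq]
      exact hv x
    · have := finrank_ker_dot hv0
      have := finrank_range hF hA ha
      omega
  constructor
  · intro h
    have : b ∈ LinearMap.range (BL hF a) := by
      rw [key, LinearMap.mem_ker, dotL_apply, dotProduct_comm]; exact h
    obtain ⟨x, hx⟩ := this
    exact ⟨x, hx⟩
  · rintro ⟨x, rfl⟩
    rw [dotProduct_comm, ← D_eq]; exact hv x


/-- the sum over `F_2^n` of a polynomial function of degree less than `n` vanishes -/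
lemma sum_poly (P : MvPolynomial (Fin n) (ZMod 2)) (hP : P.totalDegree < n) :
    ∑ x : V n, MvPolynomial.eval x P = 0 := by
  have := MvPolynomial.sum_eval_eq_zero P (by
    rw [ZMod.card, Fintype.card_fin]; omega)
  exact this

/-- no component of the ortho-derivative is affine if `n ≥ 4` -/
theorem not_affine {F : V n → V n} (hn : 4 ≤ n) (hF : IsQuadratic F) (hA : IsAPN F) {b : V n}
    (hb : b ≠ 0) (c : V n) (e : ZMod 2) : ¬ ∀ x, b ⬝ᵥ orthoDerivative F x = c ⬝ᵥ x + e := by
  classical
  intro h
  have he : e = 0 := by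
    have := h 0
    rw [ortho_zero, dotProduct_zero, dotProduct_zero, zero_add] at this
    exact this.symm
  subst he
  simp only [add_zero] at h
  -- a vector `μ` with `μ · b = 1`
  obtain ⟨i, hi⟩ : ∃ i, b i ≠ 0 := by
    by_contra hcon
    push Not at hcon
    exact hb (funext hcon)
  have hbi : b i = 1 := by
    have h01 : ∀ t : ZMod 2, t ≠ 0 → t = 1 := by decide
    exact h01 _ hi
  -- the polynomial function
  obtain ⟨P, hP, hPF⟩ := quad_polys hF i
  set g : V n → ZMod 2 := fun x => 1 + F x i + F 0 i with hg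
  set L : MvPolynomial (Fin n) (ZMod 2) := ∑ j, MvPolynomial.C (c j) * MvPolynomial.X j with hL
  have hLdeg : L.totalDegree ≤ 1 := by
    apply (MvPolynomial.totalDegree_finsetSum _ _).trans
    apply Finset.sup_le
    intro j _
    apply (MvPolynomial.totalDegree_mul _ _).trans
    rw [MvPolynomial.totalDegree_C, zero_add]
    exact (MvPolynomial.totalDegree_X j).le
  have hLeval : ∀ x : V n, MvPolynomial.eval x L = c ⬝ᵥ x := by
    intro x
    rw [hL, map_sum]
    unfold dotProduct
    refine sum_congr rfl fun j _ => ?_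
    simp
  -- sum over `U`
  have hS : ∑ x : V n, (g x * (1 + c ⬝ᵥ x)) = 0 := by
    have hdeg : ((1 + P + MvPolynomial.C (F 0 i)) * (1 + L)).totalDegree < n := by
      apply lt_of_le_of_lt (MvPolynomial.totalDegree_mul _ _)
      have h1 : (1 + P + MvPolynomial.C (F 0 i)).totalDegree ≤ 2 := by
        apply (MvPolynomial.totalDegree_add _ _).trans
        rw [MvPolynomial.totalDegree_C]
        apply max_le _ (by omega)
        apply (MvPolynomial.totalDegree_add _ _).trans
        rw [MvPolynomial.totalDegree_one]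
        exact max_le (by omega) hP
      have h2 : (1 + L).totalDegree ≤ 1 := by
        apply (MvPolynomial.totalDegree_add _ _).trans
        rw [MvPolynomial.totalDegree_one]
        exact max_le (by omega) hLdeg
      omega
    have := sum_poly _ hdeg
    rw [← this]
    refine sum_congr rfl fun x _ => ?_
    rw [map_mul, map_add, map_add, map_add, map_one, MvPolynomial.eval_C, hPF, hLeval]
  set U : Finset (V n) := univ.filter fun x => c ⬝ᵥ x = 0 with hU
  have hS2 : ∑ x ∈ U, g x = 0 := by
    rw [← hS, hU, sum_filter]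
    refine sum_congr rfl fun x _ => ?_
    by_cases hx : c ⬝ᵥ x = 0
    · rw [if_pos hx, hx]; ring
    · rw [if_neg hx]
      have h01 : ∀ t : ZMod 2, t ≠ 0 → 1 + t = 0 := by decide
      rw [h01 _ hx, mul_zero]
  have h0U : (0 : V n) ∈ U := by simp [hU]
  have hg0 : g 0 = 1 := by
    simp only [hg]
    rw [add_assoc, zmod2_add_self, add_zero]
  -- partners
  have hpart : ∀ a ∈ U.erase 0, ∃ x, B F a x = b := by
    intro a ha
    rw [mem_erase, hU, mem_filter] at ha
    rw [← ortho_iff hF hA ha.1, h a]
    exact ha.2.2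
  have hmem : ∀ a x, B F a x = b → a ∈ U.erase 0 ∧ x ∈ U.erase 0 ∧ a ≠ x ∧ B F a (a + x) = b := by
    intro a x hax
    have ha0 : a ≠ 0 := by
      rintro rfl
      rw [B_comm, B_zero_right] at hax
      exact hb hax.symm
    have hx0 : x ≠ 0 := by
      rintro rfl
      rw [B_zero_right] at hax
      exact hb hax.symm
    have h1 : c ⬝ᵥ a = 0 := by
      rw [← h a, ortho_iff hF hA ha0]; exact ⟨x, hax⟩
    have h2 : c ⬝ᵥ x = 0 := by
      rw [← h x, ortho_iff hF hA hx0]; exact ⟨a, by rw [B_comm]; exact hax⟩
    refine ⟨?_, ?_, ?_, ?_⟩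
    · rw [mem_erase, hU, mem_filter]; exact ⟨ha0, mem_univ _, h1⟩
    · rw [mem_erase, hU, mem_filter]; exact ⟨hx0, mem_univ _, h2⟩
    · rintro rfl
      rw [B_self] at hax
      exact hb hax.symm
    · rw [B_add hF, B_self, zero_add]; exact hax
  -- the classes
  set cls : V n → Finset (V n) := fun a => univ.filter fun u => u = a ∨ B F a u = b with hcls
  have hcls_eq : ∀ a x, B F a x = b → cls a = {a, x, a + x} := by
    intro a x hax
    have ha0 : a ≠ 0 := (mem_erase.1 (hmem a x hax).1).1
    ext u
    simp only [hcls, mem_filter, mem_univ, true_and, mem_insert, mem_singleton]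
    constructor
    · rintro (rfl | hu)
      · exact Or.inl rfl
      · have h3 : B F a (x + u) = 0 := by
          rw [B_add hF, hax, hu, vadd_self]
        rcases B_eq_zero hA ha0 h3 with h4 | h4
        · right; left
          exact (eq_of_add_eq_zero h4).symm
        · right; right
          have h5 : x + (x + u) = x + a := by rw [h4]
          rw [← add_assoc, vadd_self, zero_add] at h5
          rw [h5, add_comm]
    · rintro (rfl | rfl | rfl)
      · exact Or.inl rfl
      · exact Or.inr hax
      · exact Or.inr (hmem a x hax).2.2.2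
  have hcls_mem : ∀ a ∈ U.erase 0, ∀ u ∈ cls a, u ∈ U.erase 0 ∧ cls u = cls a := by
    intro a ha u hu
    obtain ⟨x, hax⟩ := hpart a ha
    have hca := hcls_eq a x hax
    have hax' := hmem a x hax
    rw [hca, mem_insert, mem_insert, mem_singleton] at hu
    rcases hu with rfl | rfl | rfl
    · exact ⟨ha, rfl⟩
    · refine ⟨hax'.2.1, ?_⟩
      rw [hca, hcls_eq u a (by rw [B_comm]; exact hax)]
      ext w
      simp only [mem_insert, mem_singleton, add_comm u a]
      tauto
    · have h6 : B F (a + x) a = b := by rw [B_comm]; exact hax'.2.2.2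
      refine ⟨(hmem _ _ h6).1, ?_⟩
      rw [hca, hcls_eq (a + x) a h6]
      have h7 : a + x + a = x := by
        rw [add_comm a x, add_assoc, vadd_self, add_zero]
      rw [h7]
      ext w
      simp only [mem_insert, mem_singleton]
      tauto
  have hzero : ∑ x ∈ U.erase 0, g x = 0 := by
    rw [← sum_fiberwise_of_maps_to (s := U.erase 0) (t := (U.erase 0).image cls) (g := cls)
      (fun x hx => mem_image_of_mem _ hx)]
    refine sum_eq_zero fun C hC => ?_
    obtain ⟨a, ha, rfl⟩ := mem_image.1 hC
    have hfib : (U.erase 0).filter (fun x => cls x = cls a) = cls a := by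
      ext u
      rw [mem_filter]
      constructor
      · rintro ⟨_, hu⟩
        rw [← hu]
        simp [hcls]
      · intro hu
        exact hcls_mem a ha u hu
    rw [hfib]
    obtain ⟨x, hax⟩ := hpart a ha
    have hax' := hmem a x hax
    rw [hcls_eq a x hax]
    have hne1 : a ≠ x := hax'.2.2.1
    have hne2 : a ≠ a + x := by
      intro h8
      have := (hmem a (a + x) hax'.2.2.2).2.2.1
      exact this h8
    have hne3 : x ≠ a + x := by
      intro h8
      have h9 : B F x (x + a) = b := by
        rw [B_add hF, B_self, zero_add, B_comm]; exact hax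
      exact (hmem x (x + a) h9).2.2.1 (by rw [add_comm x a]; exact h8)
    rw [sum_insert (by simp [hne1, hne2]), sum_insert (by simpa using hne3), sum_singleton]
    have hBi : B F a x i = 1 := by rw [hax]; exact hbi
    simp only [B, Pi.add_apply] at hBi
    simp only [hg]
    have h2 : (2 : ZMod 2) = 0 := by decide
    linear_combination hBi + (2 + F 0 i) * h2
  rw [← add_sum_erase U g h0U, hzero, hg0] at hS2
  exact absurd hS2 (by decide)

end general

section three

/-- The function `x ↦ x^3` on the field `F_2[t]/(t^3 + t + 1)` in the basis `1, t, t^2`. -/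
def F3 (x : V 3) : V 3 :=
  ![x 0 + x 1 + x 2 + x 1 * x 2, x 1 + x 0 * x 1 + x 0 * x 2, x 2 + x 0 * x 1]

lemma F3_apn : IsAPN F3 := by
  unfold IsAPN
  decide

lemma F3_quadratic : IsQuadratic F3 := by
  classical
  unfold IsQuadratic algDegree
  have h2mem : ∀ i : Fin 3, ∃ P : MvPolynomial (Fin 3) (ZMod 2), P.totalDegree ≤ 2 ∧
      ∀ x : V 3, MvPolynomial.eval x P = F3 x i := by
    have hX : ∀ j : Fin 3, (MvPolynomial.X j : MvPolynomial (Fin 3) (ZMod 2)).totalDegree ≤ 2 := by
      intro j
      rw [MvPolynomial.totalDegree_X]; omega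
    have hXX : ∀ j k : Fin 3, ((MvPolynomial.X j : MvPolynomial (Fin 3) (ZMod 2)) *
        MvPolynomial.X k).totalDegree ≤ 2 := by
      intro j k
      apply (MvPolynomial.totalDegree_mul _ _).trans
      rw [MvPolynomial.totalDegree_X, MvPolynomial.totalDegree_X]
    have hadd : ∀ P Q : MvPolynomial (Fin 3) (ZMod 2), P.totalDegree ≤ 2 → Q.totalDegree ≤ 2 →
        (P + Q).totalDegree ≤ 2 := fun P Q hP hQ =>
      (MvPolynomial.totalDegree_add _ _).trans (max_le hP hQ)
    intro i
    fin_cases i
    · refine ⟨MvPolynomial.X 0 + MvPolynomial.X 1 + MvPolynomial.X 2 +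
        MvPolynomial.X 1 * MvPolynomial.X 2,
        hadd _ _ (hadd _ _ (hadd _ _ (hX 0) (hX 1)) (hX 2)) (hXX 1 2), fun x => ?_⟩
      simp [F3]
    · refine ⟨MvPolynomial.X 1 + MvPolynomial.X 0 * MvPolynomial.X 1 +
        MvPolynomial.X 0 * MvPolynomial.X 2,
        hadd _ _ (hadd _ _ (hX 1) (hXX 0 1)) (hXX 0 2), fun x => ?_⟩
      simp [F3]
    · refine ⟨MvPolynomial.X 2 + MvPolynomial.X 0 * MvPolynomial.X 1,
        hadd _ _ (hX 2) (hXX 0 1), fun x => ?_⟩
      simp [F3]
  apply le_antisymm
  · exact Nat.sInf_le h2mem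
  · apply le_csInf
    · exact ⟨2, h2mem⟩
    intro r hr
    by_contra hlt
    push Not at hlt
    -- the third coordinate would have vanishing second derivatives
    obtain ⟨P, hP, hPF⟩ := hr 2
    have hsq : ∀ (s : Fin 3 →₀ ℕ), s.sum (fun _ e => e) ≤ 1 → ∀ x y : V 3,
        MvPolynomial.eval (x + y) (MvPolynomial.monomial s (1 : ZMod 2))
        + MvPolynomial.eval x (MvPolynomial.monomial s (1 : ZMod 2))
        + MvPolynomial.eval y (MvPolynomial.monomial s (1 : ZMod 2))
        + MvPolynomial.eval 0 (MvPolynomial.monomial s (1 : ZMod 2)) = 0 := by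
      intro s hs x y
      have hcard : Multiset.card (Finsupp.toMultiset s) ≤ 1 := by
        rw [Finsupp.card_toMultiset]; exact hs
      simp only [eval_monomial_toMultiset]
      have h2 : (2 : ZMod 2) = 0 := by decide
      interval_cases h : Multiset.card (Finsupp.toMultiset s)
      · rw [Multiset.card_eq_zero] at h
        rw [h]; simp only [Multiset.map_zero, Multiset.prod_zero]; decide
      · rw [Multiset.card_eq_one] at h
        obtain ⟨i, hi⟩ := h
        rw [hi]
        simp only [Multiset.map_singleton, Multiset.prod_singleton, Pi.add_apply, Pi.zero_apply]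
        linear_combination (x i + y i) * h2
    have hPsq : ∀ x y : V 3, MvPolynomial.eval (x + y) P + MvPolynomial.eval x P +
        MvPolynomial.eval y P + MvPolynomial.eval 0 P = 0 := by
      intro x y
      have key : ∀ w : V 3, MvPolynomial.eval w P = ∑ s ∈ P.support, P.coeff s *
          MvPolynomial.eval w (MvPolynomial.monomial s (1 : ZMod 2)) := by
        intro w
        conv_lhs => rw [P.as_sum]
        rw [map_sum]
        refine sum_congr rfl fun s _ => ?_
        rw [MvPolynomial.eval_monomial, MvPolynomial.eval_monomial, one_mul]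
      simp only [key]
      simp only [← sum_add_distrib, ← mul_add]
      refine sum_eq_zero fun s hs => ?_
      have h1 : s.sum (fun _ e => e) ≤ 1 :=
        (MvPolynomial.le_totalDegree hs).trans (hP.trans (by omega))
      rw [hsq s h1 x y, mul_zero]
    have h3 := hPsq ![1, 0, 0] ![0, 1, 0]
    rw [hPF, hPF, hPF, hPF] at h3
    revert h3
    decide

/-- the ortho-derivative of `F3` -/
def G3 (a : V 3) : V 3 := ![a 0, a 1, a 1 + a 2]

lemma ortho_F3 (a : V 3) : orthoDerivative F3 a = G3 a := by
  by_cases ha : a = 0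
  · subst ha
    rw [ortho_zero]
    decide
  · apply ortho_unique F3_quadratic F3_apn ha
    · revert ha; revert a; decide
    · revert ha; revert a; decide

lemma NL_F3 : NL (orthoDerivative F3) = 0 := by
  have h : (0 : ℕ) ∈ {m : ℕ | ∃ b : V 3, b ≠ 0 ∧ ∃ (c : V 3) (e : ZMod 2),
      m = (univ.filter fun x : V 3 => b ⬝ᵥ orthoDerivative F3 x ≠ c ⬝ᵥ x + e).card} := by
    refine ⟨![1, 0, 0], by decide, ![1, 0, 0], 0, ?_⟩
    simp only [ortho_F3]
    decide
  exact Nat.sInf_eq_zero.2 (Or.inl h)

end three

/-- **Quadratic APN functions whose ortho-derivative has nonlinearity zero.** For `n ≥ 3` there is a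
quadratic APN function `F` on `F_2^n` whose ortho-derivative has nonlinearity `0` if and only if
`n = 3`. So `n = 3` is the only dimension `n ≥ 3` for which the answer is yes. -/
theorem result (n : ℕ) (hn : 3 ≤ n) :
    (∃ F : V n → V n, IsQuadratic F ∧ IsAPN F ∧ NL (orthoDerivative F) = 0) ↔ n = 3 := by
  constructor
  · rintro ⟨F, hF, hA, hNL⟩
    by_contra hne
    have hn4 : 4 ≤ n := by omega
    unfold NL at hNL
    rw [Nat.sInf_eq_zero] at hNL
    rcases hNL with h | h
    · obtain ⟨b, hb, c, e, hcard⟩ := h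
      apply not_affine hn4 hF hA hb c e
      intro x
      by_contra hx
      have : x ∈ univ.filter fun x : V n => b ⬝ᵥ orthoDerivative F x ≠ c ⬝ᵥ x + e := by
        rw [mem_filter]; exact ⟨mem_univ _, hx⟩
      rw [card_eq_zero.1 hcard.symm] at this
      exact absurd this (notMem_empty _)
    · have hmem : (univ.filter fun x : V n => (Pi.single (⟨0, by omega⟩ : Fin n) 1 : V n) ⬝ᵥ
          orthoDerivative F x ≠ (0 : V n) ⬝ᵥ x + 0).card ∈ {m : ℕ | ∃ b : V n, b ≠ 0 ∧
          ∃ (c : V n) (e : ZMod 2),
          m = (univ.filter fun x : V n => b ⬝ᵥ orthoDerivative F x ≠ c ⬝ᵥ x + e).card} := by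
        refine ⟨Pi.single ⟨0, by omega⟩ 1, ?_, 0, 0, rfl⟩
        intro h0
        have := congrFun h0 ⟨0, by omega⟩
        simp at this
      rw [h] at hmem
      exact absurd hmem (Set.notMem_empty _)
  · rintro rfl
    exact ⟨F3, F3_quadratic, F3_apn, NL_F3⟩

end Pool.Agent.Results.MP_4cfb12_co.OrthoDerivativeH38
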